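import Pool.Agent.Work.MP_db9399_nc.Base

/-! # MP_db9399, THEOREM NC, block COMP: rounds -/

set_option autoImplicit false

namespace Pool.Agent.Work.MP_db9399_nc.helper21

open Finset Classical
open Pool.Agent.Work.MP_db9399_all (nb)
open Pool.Agent.Work.MP_db9399_nc

universe u

/-- the support of an involution is even -/
theorem even_supp {V : Type u} [Fintype V] (K : V → V) (hK : ∀ v, K (K v) = v) :
    Even (univ.filter (fun v => K v ≠ v)).card := by
  have h := Equiv.Perm.two_dvd_card_support (σ := (Function.Involutive.toPerm K hK)) (by
    ext v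
    simp [pow_two, hK])
  rw [even_iff_two_dvd]
  have h2 : (Function.Involutive.toPerm K hK).support = univ.filter (fun v => K v ≠ v) := by
    ext v
    simp [Equiv.Perm.mem_support]
  rwa [h2] at h

theorem stmt_COMP (hPM : Stmt_PM.{u}) : Stmt_COMP.{u} := by
  intro V _ G L E s X K hK hKL hev hnn hX
  have hind : ∀ E' : Finset ℕ, E' ⊆ E → ∃ M : ℕ → V → V, Mts G E' M ∧
      (∀ b ∈ E', ∀ v, M b v = v ↔ v ∈ X b) ∧ (∀ b ∈ E', ∀ v, K b v ≠ v → M b v = K b v) ∧
      ∀ b ∈ E', ∀ v, M b v ≠ v → L.Adj v (M b v) → K b v = M b v := by
    intro E'
    induction E' using Finset.induction_on with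
    | empty =>
      intro _
      refine ⟨fun _ => id, ⟨?_, ?_, ?_⟩, ?_, ?_, ?_⟩ <;> simp
    | insert b0 E' hb0 ih =>
      intro hE
      have hb0E : b0 ∈ E := hE (mem_insert_self _ _)
      have hE' : E' ⊆ E := (subset_insert _ _).trans hE
      obtain ⟨M, hM, hMX, hMK, hML⟩ := ih hE'
      obtain ⟨R, hR⟩ : ∃ R, R = (univ \ X b0) \ univ.filter (fun v => K b0 v ≠ v) := ⟨_, rfl⟩
      have hmR : ∀ v, v ∈ R ↔ v ∉ X b0 ∧ K b0 v = v := by
        intro v
        rw [hR]
        simp
      have hsub : univ.filter (fun v => K b0 v ≠ v) ⊆ univ \ X b0 := by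
        intro v hv
        rw [mem_filter] at hv
        rw [mem_sdiff]
        exact ⟨mem_univ _, (hKL b0 hb0E v hv.2).2⟩
      have hRc : R.card + (univ.filter (fun v => K b0 v ≠ v)).card = (univ \ X b0).card := by
        rw [hR, card_sdiff_of_subset hsub]
        have := card_le_card hsub
        omega
      have hXc : (univ \ X b0).card + (X b0).card = Fintype.card V := by
        rw [card_sdiff_of_subset (subset_univ _), card_univ]
        have := card_le_univ (X b0)
        omega
      have hRev : Even R.card := by
        have h1 := even_supp (K b0) (hK.inv b0 hb0E)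
        have h2 := hev b0 hb0E
        rw [← hRc] at h2
        rw [Nat.even_add] at h2
        exact h2.mpr h1
      have hMsym : ∀ b ∈ E', ∀ v w, M b v = w ↔ M b w = v := by
        intro b hb v w
        constructor
        · rintro rfl
          exact hM.inv b hb v
        · rintro rfl
          exact hM.inv b hb w
      let G' : SimpleGraph V :=
        { Adj := fun v w => G.Adj v w ∧ ¬ L.Adj v w ∧ ∀ b ∈ E', M b v ≠ w
          symm := ⟨fun v w h => ⟨h.1.symm, fun h' => h.2.1 h'.symm,
            fun b hb h' => h.2.2 b hb ((hMsym b hb w v).mp h')⟩⟩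
          loopless := ⟨fun v h => G.loopless.irrefl v h.1⟩ }
      have hadj : ∀ v w, G'.Adj v w ↔ G.Adj v w ∧ ¬ L.Adj v w ∧ ∀ b ∈ E', M b v ≠ w :=
        fun v w => Iff.rfl
      have hnn' : ∀ v ∈ R, (nn G' R v).card ≤ s := by
        intro v _
        have h1 : nn G' R v ⊆ (nn G univ v ∪ nb L v) ∪ E'.image (fun b => M b v) := by
          intro w hw
          rw [mem_nn, hadj] at hw
          rw [mem_union, mem_union, mem_nn, mem_nb, mem_image]
          by_contra hcon
          push Not at hcon
          obtain ⟨⟨h1, h2⟩, h3⟩ := hcon
          exact hw.2.2 ⟨h1 (mem_univ _) hw.2.1, h2, h3⟩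
        have h2 := card_le_card h1
        have h3 := card_union_le (nn G univ v ∪ nb L v) (E'.image (fun b => M b v))
        have h4 := card_union_le (nn G univ v) (nb L v)
        have h5 : (E'.image (fun b => M b v)).card ≤ E'.card := card_image_le
        have h6 := card_le_card hE'
        have h7 := hnn v
        omega
      obtain ⟨m, hm1, hm2, hm3⟩ := hPM G' R s hRev (by
        have := hX b0 hb0E
        omega) hnn'
      obtain ⟨m0, hm0⟩ : ∃ m0 : V → V, m0 = fun v => if K b0 v ≠ v then K b0 v else m v :=
        ⟨_, rfl⟩
      have m0K : ∀ v, K b0 v ≠ v → m0 v = K b0 v := by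
        intro v h
        rw [hm0]
        simp only [h, ne_eq, not_false_eq_true, if_true]
      have m0N : ∀ v, K b0 v = v → m0 v = m v := by
        intro v h
        rw [hm0]
        simp only [h, ne_eq, not_true_eq_false, if_false]
      have mfix : ∀ v, v ∉ R → m v = v := by
        intro v hv
        by_contra hcon
        exact hv ((hm2 v).mp hcon)
      have m0inv : ∀ v, m0 (m0 v) = v := by
        intro v
        by_cases h : K b0 v = v
        · rw [m0N v h]
          by_cases hv : v ∈ R
          · have h1 : m v ∈ R := by
              rw [← hm2, hm1]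
              exact fun h' => (hm2 v).mpr hv h'.symm
            rw [m0N _ ((hmR _).mp h1).2, hm1]
          · rw [mfix v hv, m0N v h, mfix v hv]
        · rw [m0K v h]
          have h1 := hK.inv b0 hb0E v
          rw [m0K _ (by rw [h1]; exact fun h' => h h'.symm), h1]
      have m0adj : ∀ v, m0 v ≠ v → G.Adj v (m0 v) := by
        intro v hv
        by_cases h : K b0 v = v
        · rw [m0N v h] at hv ⊢
          exact ((hadj _ _).mp (hm3 v ((hm2 v).mp hv))).1
        · rw [m0K v h]
          exact hK.adj b0 hb0E v h
      have m0X : ∀ v, m0 v = v ↔ v ∈ X b0 := by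
        intro v
        by_cases h : K b0 v = v
        · rw [m0N v h]
          constructor
          · intro h1
            by_contra hcon
            exact (hm2 v).mpr ((hmR v).mpr ⟨hcon, h⟩) h1
          · intro h1
            exact mfix v (fun h2 => ((hmR v).mp h2).1 h1)
        · rw [m0K v h]
          exact ⟨fun h' => absurd h' h, fun h' => absurd h' (hKL b0 hb0E v h).2⟩
      have m0L : ∀ v, m0 v ≠ v → L.Adj v (m0 v) → K b0 v = m0 v := by
        intro v hv hL
        by_cases h : K b0 v = v
        · rw [m0N v h] at hv hL
          exact absurd hL ((hadj _ _).mp (hm3 v ((hm2 v).mp hv))).2.1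
        · exact (m0K v h).symm
      have m0dis : ∀ b' ∈ E', ∀ v, m0 v ≠ v → m0 v ≠ M b' v := by
        intro b' hb' v hv heq
        by_cases h : K b0 v = v
        · rw [m0N v h] at hv heq
          exact ((hadj _ _).mp (hm3 v ((hm2 v).mp hv))).2.2 b' hb' heq.symm
        · rw [m0K v h] at heq
          have h1 : M b' v ≠ v := by rw [← heq]; exact h
          have h2 := hML b' hb' v h1 (by rw [← heq]; exact (hKL b0 hb0E v h).1)
          exact hK.dis b0 hb0E b' (hE' hb') (by rintro rfl; exact hb0 hb') v h (heq.trans h2.symm)
      refine ⟨fun b => if b = b0 then m0 else M b, ⟨?_, ?_, ?_⟩, ?_, ?_, ?_⟩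
      · intro b hb v
        by_cases h : b = b0
        · simp only [h, if_true]
          exact m0inv v
        · simp only [h, if_false]
          exact hM.inv b (mem_of_mem_insert_of_ne hb h) v
      · intro b hb v
        by_cases h : b = b0
        · simp only [h, if_true]
          exact m0adj v
        · simp only [h, if_false]
          exact hM.adj b (mem_of_mem_insert_of_ne hb h) v
      · intro b hb b' hb' hbb v
        by_cases h : b = b0
        · have h' : b' ≠ b0 := fun h' => hbb (h.trans h'.symm)
          simp only [h, h', if_true, if_false]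
          exact m0dis b' (mem_of_mem_insert_of_ne hb' h') v
        · by_cases h' : b' = b0
          · simp only [h, h', if_true, if_false]
            intro h1 h2
            exact m0dis b (mem_of_mem_insert_of_ne hb h) v (by rw [← h2]; exact h1) h2.symm
          · simp only [h, h', if_false]
            exact hM.dis b (mem_of_mem_insert_of_ne hb h) b' (mem_of_mem_insert_of_ne hb' h') hbb v
      · intro b hb v
        by_cases h : b = b0
        · simp only [h, if_true]
          exact m0X v
        · simp only [h, if_false]
          exact hMX b (mem_of_mem_insert_of_ne hb h) v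
      · intro b hb v
        by_cases h : b = b0
        · simp only [h, if_true]
          exact m0K v
        · simp only [h, if_false]
          exact hMK b (mem_of_mem_insert_of_ne hb h) v
      · intro b hb v
        by_cases h : b = b0
        · simp only [h, if_true]
          exact m0L v
        · simp only [h, if_false]
          exact hML b (mem_of_mem_insert_of_ne hb h) v
  exact hind E (Subset.refl _)

end Pool.Agent.Work.MP_db9399_nc.helper21
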