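import Pool.Agent.Work.MP_db9399_nc.Base

/-! # MP_db9399, THEOREM NC, block PM: perfect matchings in nearly complete graphs -/

set_option autoImplicit false

namespace Pool.Agent.Work.MP_db9399_nc.helper21

open Finset Classical
open Pool.Agent.Work.MP_db9399_all (nb)
open Pool.Agent.Work.MP_db9399_nc

universe u

theorem stmt_PM : Stmt_PM.{u} := by
  intro V _ G R s hev hs hnn
  obtain ⟨A, hAR, hA⟩ := Finset.exists_subset_card_eq (s := R) (n := R.card / 2)
    (Nat.div_le_self _ _)
  obtain ⟨B, hB⟩ : ∃ B, B = R \ A := ⟨_, rfl⟩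
  have hBc : B.card = R.card / 2 := by
    rw [hB, card_sdiff_of_subset hAR, hA]
    obtain ⟨r, hr⟩ := hev
    omega
  have hdis : ∀ v, v ∈ A → v ∉ B := by
    intro v hv hv'
    rw [hB, mem_sdiff] at hv'
    exact hv'.2 hv
  have hBR : B ⊆ R := by
    rw [hB]
    exact sdiff_subset
  have hcov : ∀ v ∈ R, v ∈ A ∨ v ∈ B := by
    intro v hv
    by_cases h : v ∈ A
    · exact Or.inl h
    · exact Or.inr (by rw [hB]; exact mem_sdiff.mpr ⟨hv, h⟩)
  have hall : ∀ S : Finset A,
      S.card ≤ (S.biUnion (fun a => B.filter (fun b => G.Adj a b))).card := by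
    intro S
    rcases S.eq_empty_or_nonempty with rfl | ⟨a0, ha0⟩
    · simp
    by_cases h : S.card + s ≤ B.card
    · have h1 : B ⊆ (B.filter (fun b => G.Adj a0 b)) ∪ nn G R a0 := by
        intro b hb
        rw [mem_union, mem_filter, mem_nn]
        by_cases hadj : G.Adj a0 b
        · exact Or.inl ⟨hb, hadj⟩
        · refine Or.inr ⟨hBR hb, ?_, hadj⟩
          rintro rfl
          exact hdis _ a0.2 hb
      have h2 := (card_le_card h1).trans (card_union_le _ _)
      have h3 := hnn a0 (hAR a0.2)
      have h4 : (B.filter (fun b => G.Adj a0 b)).card ≤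
          (S.biUnion (fun a => B.filter (fun b => G.Adj a b))).card :=
        card_le_card (subset_biUnion_of_mem (fun a : A => B.filter (fun b => G.Adj a b)) ha0)
      omega
    · have h1 : B ⊆ S.biUnion (fun a => B.filter (fun b => G.Adj a b)) := by
        intro b hb
        by_contra hcon
        have h2 : S.map (Function.Embedding.subtype _) ⊆ nn G R b := by
          intro a ha
          rw [mem_map] at ha
          obtain ⟨a', ha', rfl⟩ := ha
          rw [mem_nn]
          refine ⟨hAR a'.2, ?_, ?_⟩
          · intro h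
            exact hdis _ a'.2 (by rw [Function.Embedding.coe_subtype] at h; rw [h]; exact hb)
          · intro h
            apply hcon
            rw [mem_biUnion]
            exact ⟨a', ha', mem_filter.mpr ⟨hb, h.symm⟩⟩
        have h3 := card_le_card h2
        rw [card_map] at h3
        have h4 := hnn b (hBR hb)
        omega
      have h2 := card_le_card h1
      have h3 : S.card ≤ A.card := by
        have := card_le_univ S
        rwa [Fintype.card_coe] at this
      omega
  obtain ⟨φ, hφi, hφ⟩ := (Finset.all_card_le_biUnion_card_iff_exists_injective _).mp hall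
  have hφB : ∀ a : A, φ a ∈ B := fun a => (mem_filter.mp (hφ a)).1
  have hφadj : ∀ a : A, G.Adj a (φ a) := fun a => (mem_filter.mp (hφ a)).2
  have himg : (univ : Finset A).image φ = B := by
    apply eq_of_subset_of_card_le
    · intro b hb
      rw [mem_image] at hb
      obtain ⟨a, _, rfl⟩ := hb
      exact hφB a
    · rw [card_image_of_injective _ hφi, card_univ, Fintype.card_coe]
      omega
  have hsurj : ∀ b ∈ B, ∃ a : A, φ a = b := by
    intro b hb
    rw [← himg, mem_image] at hb
    obtain ⟨a, _, h⟩ := hb
    exact ⟨a, h⟩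
  by_cases hne : Nonempty A
  swap
  · have hA0 : A = ∅ := by
      rw [← not_nonempty_iff_eq_empty]
      rintro ⟨a, ha⟩
      exact hne ⟨⟨a, ha⟩⟩
    have hR0 : R = ∅ := by
      rw [← card_eq_zero]
      rw [hA0, card_empty] at hA
      obtain ⟨r, hr⟩ := hev
      omega
    refine ⟨id, fun v => rfl, fun v => ?_, ?_⟩
    · rw [hR0]
      simp
    · rw [hR0]
      simp
  choose! ψ hψ using hsurj
  have hψφ : ∀ a : A, ψ (φ a) = a := fun a => hφi (hψ _ (hφB a))
  obtain ⟨m, hm⟩ : ∃ m : V → V, m = fun v => if h : v ∈ A then φ ⟨v, h⟩ else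
      if v ∈ B then ((ψ v : A) : V) else v := ⟨_, rfl⟩
  have mA : ∀ v (h : v ∈ A), m v = φ ⟨v, h⟩ := by
    intro v h
    rw [hm]
    simp only [h, dite_true]
  have mB : ∀ v, v ∈ B → m v = ψ v := by
    intro v h
    have h' : v ∉ A := fun h' => hdis v h' h
    rw [hm]
    simp only [h, h', dite_false, if_true]
  have mN : ∀ v, v ∉ R → m v = v := by
    intro v h
    have h1 : v ∉ A := fun h' => h (hAR h')
    have h2 : v ∉ B := fun h' => h (hBR h')
    rw [hm]
    simp only [h1, h2, dite_false, if_false]
  refine ⟨m, ?_, ?_, ?_⟩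
  · intro v
    by_cases h : v ∈ R
    · rcases hcov v h with h | h
      · rw [mA v h, mB _ (hφB _), hψφ]
      · rw [mB v h, mA _ (ψ v).2]
        exact hψ v h
    · rw [mN v h, mN v h]
  · intro v
    constructor
    · intro h
      by_contra hcon
      exact h (mN v hcon)
    · intro h
      rcases hcov v h with h | h
      · rw [mA v h]
        intro heq
        exact hdis v h (by have := hφB ⟨v, h⟩; rwa [heq] at this)
      · rw [mB v h]
        intro heq
        exact hdis _ (ψ v).2 (by rw [heq]; exact h)
  · intro v h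
    rcases hcov v h with h | h
    · rw [mA v h]
      exact hφadj ⟨v, h⟩
    · rw [mB v h]
      have := hφadj (ψ v)
      rw [hψ v h] at this
      exact this.symm

end Pool.Agent.Work.MP_db9399_nc.helper21
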