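import Pool.Agent.Work.MP_db9399_nc.Base
import Pool.Agent.Work.MP_db9399_co.Galvin

/-! # MP_db9399, THEOREM NC, block ABSB: all edges inside `W` get colours of `E`
(Galvin between two halves, greedy inside the halves) -/

set_option autoImplicit false

namespace Pool.Agent.Work.MP_db9399_nc.helper21

open Finset Classical
open Pool.Agent.Work.MP_db9399_all (nb)
open Pool.Agent.Work.MP_db9399_nc

universe u

/-- greedy colouring of items with conflicts -/
theorem greedy {ι : Type u} [Fintype ι] (cf : ι → ι → Prop) (T : Finset ι) (L : ι → Finset ℕ)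
    (hs : ∀ i j, cf i j → cf j i)
    (h : ∀ i ∈ T, (T.filter (fun j => cf i j)).card < (L i).card) :
    ∃ t : ι → ℕ, (∀ i ∈ T, t i ∈ L i) ∧ ∀ i ∈ T, ∀ j ∈ T, i ≠ j → cf i j → t i ≠ t j := by
  induction T using Finset.induction_on with
  | empty => exact ⟨fun _ => 0, by simp, by simp⟩
  | insert e T he ih =>
    obtain ⟨t, ht1, ht2⟩ := ih (by
      intro i hi
      refine lt_of_le_of_lt (card_le_card ?_) (h i (mem_insert_of_mem hi))
      exact filter_subset_filter _ (subset_insert _ _))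
    obtain ⟨b, hb, hb'⟩ : ∃ b ∈ L e, b ∉ (T.filter (fun j => cf e j)).image t := by
      by_contra hcon
      push Not at hcon
      have h1 := card_le_card (show L e ⊆ _ from hcon)
      have h2 := h e (mem_insert_self _ _)
      have h3 : (T.filter (fun j => cf e j)).card ≤
          ((insert e T).filter (fun j => cf e j)).card :=
        card_le_card (filter_subset_filter _ (subset_insert _ _))
      have h4 : ((T.filter (fun j => cf e j)).image t).card ≤ _ := card_image_le
      omega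
    have hb2 : ∀ j ∈ T, cf e j → b ≠ t j := by
      intro j hj hc heq
      exact hb' (mem_image.mpr ⟨j, mem_filter.mpr ⟨hj, hc⟩, heq.symm⟩)
    refine ⟨fun i => if i = e then b else t i, ?_, ?_⟩
    · intro i hi
      by_cases hie : i = e
      · simp only [hie, if_true]
        exact hb
      · simp only [hie, if_false]
        exact ht1 i (mem_of_mem_insert_of_ne hi hie)
    · intro i hi j hj hij hc
      by_cases hie : i = e
      · have hje : j ≠ e := fun h => hij (hie.trans h.symm)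
        simp only [hie, hje, if_true, if_false]
        exact hb2 j (mem_of_mem_insert_of_ne hj hje) (hie ▸ hc)
      · by_cases hje : j = e
        · simp only [hie, hje, if_true, if_false]
          exact (hb2 i (mem_of_mem_insert_of_ne hi hie) (hje ▸ hs _ _ hc)).symm
        · simp only [hie, hje, if_false]
          exact ht2 i (mem_of_mem_insert_of_ne hi hie) j (mem_of_mem_insert_of_ne hj hje) hij hc

/-- an index function on a finite set -/
theorem exists_idx {V : Type u} (A : Finset V) (m : ℕ) (h : A.card ≤ m) (hm : 0 < m) :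
    ∃ i : V → ℕ, (∀ v, i v < m) ∧ Set.InjOn i (A : Set V) := by
  refine ⟨fun v => if hv : v ∈ A then (A.equivFin ⟨v, hv⟩).val else 0, ?_, ?_⟩
  · intro v
    by_cases hv : v ∈ A
    · simp only [hv, dite_true]
      exact lt_of_lt_of_le (A.equivFin ⟨v, hv⟩).isLt h
    · simp only [hv, dite_false]
      exact hm
  · intro v hv w hw heq
    rw [mem_coe] at hv hw
    simp only [hv, hw, dite_true] at heq
    have := A.equivFin.injective (Fin.ext heq)
    exact congrArg Subtype.val this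

theorem mod_inj {m i j j' : ℕ} (hj : j < m) (hj' : j' < m) (h : (i + j) % m = (i + j') % m) :
    j = j' := by
  have h1 : i + j ≡ i + j' [MOD m] := h
  have h2 : j ≡ j' [MOD m] := Nat.ModEq.add_left_cancel' i h1
  unfold Nat.ModEq at h2
  rwa [Nat.mod_eq_of_lt hj, Nat.mod_eq_of_lt hj'] at h2

/-- Galvin for the edges between `A` and `B` -/
theorem galvin_AB {V : Type u} [Fintype V] (G : SimpleGraph V) (A B : Finset V) (m : ℕ)
    (hm : 0 < m) (hA : A.card ≤ m) (hB : B.card ≤ m) (L : V × V → Finset ℕ)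
    (hL : ∀ e : V × V, e.1 ∈ A → e.2 ∈ B → G.Adj e.1 e.2 → m ≤ (L e).card) :
    ∃ col : V × V → ℕ, (∀ v ∈ A, ∀ w ∈ B, G.Adj v w → col (v, w) ∈ L (v, w)) ∧
      (∀ v ∈ A, ∀ w ∈ B, ∀ w' ∈ B, G.Adj v w → G.Adj v w' → w ≠ w' →
        col (v, w) ≠ col (v, w')) ∧
      ∀ v ∈ A, ∀ v' ∈ A, ∀ w ∈ B, G.Adj v w → G.Adj v' w → v ≠ v' →
        col (v, w) ≠ col (v', w) := by
  obtain ⟨i, hi, hiA⟩ := exists_idx A m hA hm
  obtain ⟨j, hj, hjB⟩ := exists_idx B m hB hm
  obtain ⟨φ, hφ⟩ : ∃ φ : V × V → ℕ, φ = fun e => (i e.1 + j e.2) % m := ⟨_, rfl⟩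
  have hφm : ∀ e, φ e < m := by
    intro e
    rw [hφ]
    exact Nat.mod_lt _ hm
  obtain ⟨S, hS⟩ : ∃ S : Finset (V × V),
      S = (A ×ˢ B).filter (fun e => G.Adj e.1 e.2) := ⟨_, rfl⟩
  have hmS : ∀ e, e ∈ S ↔ e.1 ∈ A ∧ e.2 ∈ B ∧ G.Adj e.1 e.2 := by
    intro e
    rw [hS, mem_filter, mem_product, and_assoc]
  have ha : ∀ e ∈ S, ∀ f ∈ S, e.1 = f.1 → φ e = φ f → e = f := by
    intro e he f hf h1 h2
    rw [hmS] at he hf
    rw [hφ] at h2
    simp only [h1] at h2
    have := mod_inj (hj _) (hj _) h2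
    exact Prod.ext h1 (hjB (mem_coe.mpr he.2.1) (mem_coe.mpr hf.2.1) this)
  have hb : ∀ e ∈ S, ∀ f ∈ S, e.2 = f.2 → φ e = φ f → e = f := by
    intro e he f hf h1 h2
    rw [hmS] at he hf
    rw [hφ] at h2
    simp only [h1] at h2
    rw [add_comm (i e.1), add_comm (i f.1)] at h2
    have := mod_inj (hi _) (hi _) h2
    exact Prod.ext (hiA (mem_coe.mpr he.1) (mem_coe.mpr hf.1) this) h1
  obtain ⟨col, h1, h2⟩ := _root_.MP_db9399_co.galvin (C := ℕ) (Prod.fst : V × V → V)
    (Prod.snd : V × V → V)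
    φ (fun e => m - 1 - φ e) S ha (by
      intro e he f hf h1 h2
      refine hb e he f hf h1 ?_
      have h3 := hφm e
      have h4 := hφm f
      omega) L (by
      intro e he
      have h3 : (S.filter (fun f => f.1 = e.1 ∧ φ f < φ e)).card ≤ φ e := by
        have : (S.filter (fun f => f.1 = e.1 ∧ φ f < φ e)).card ≤ (range (φ e)).card := by
          apply card_le_card_of_injOn φ
          · intro f hf
            rw [mem_coe, mem_filter] at hf
            exact mem_coe.mpr (mem_range.mpr hf.2.2)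
          · intro f hf f' hf' heq
            rw [mem_coe, mem_filter] at hf hf'
            exact ha f hf.1 f' hf'.1 (hf.2.1.trans hf'.2.1.symm) heq
        rwa [card_range] at this
      have h4 : (S.filter (fun f => f.2 = e.2 ∧ m - 1 - φ f < m - 1 - φ e)).card ≤
          m - 1 - φ e := by
        have : (S.filter (fun f => f.2 = e.2 ∧ m - 1 - φ f < m - 1 - φ e)).card ≤
            (range (m - 1 - φ e)).card := by
          apply card_le_card_of_injOn (fun f => m - 1 - φ f)
          · intro f hf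
            rw [mem_coe, mem_filter] at hf
            exact mem_coe.mpr (mem_range.mpr hf.2.2)
          · intro f hf f' hf' heq
            rw [mem_coe, mem_filter] at hf hf'
            refine hb f hf.1 f' hf'.1 (hf.2.1.trans hf'.2.1.symm) ?_
            have h5 := hφm f
            have h6 := hφm f'
            simp only at heq
            omega
        rwa [card_range] at this
      have h5 := hφm e
      rw [hmS] at he
      have h6 := hL e he.1 he.2.1 he.2.2
      omega)
  refine ⟨col, ?_, ?_, ?_⟩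
  · intro v hv w hw hvw
    exact h1 (v, w) ((hmS _).mpr ⟨hv, hw, hvw⟩)
  · intro v hv w hw w' hw' hvw hvw' hne
    exact h2 (v, w) ((hmS _).mpr ⟨hv, hw, hvw⟩) (v, w') ((hmS _).mpr ⟨hv, hw', hvw'⟩)
      (fun h => hne (congrArg Prod.snd h)) (Or.inl rfl)
  · intro v hv v' hv' w hw hvw hvw' hne
    exact h2 (v, w) ((hmS _).mpr ⟨hv, hw, hvw⟩) (v', w) ((hmS _).mpr ⟨hv', hw, hvw'⟩)
      (fun h => hne (congrArg Prod.fst h)) (Or.inr rfl)

/-- greedy inside a half -/
theorem greedy_half {V : Type u} [Fintype V] (G : SimpleGraph V) (A : Finset V) (m z : ℕ)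
    (hA : A.card ≤ m) (P : Finset ℕ) (Z : V → Finset ℕ) (hZ : ∀ v ∈ A, (Z v).card ≤ z)
    (hP : 2 * m + 2 * z < P.card) :
    ∃ t : V → V → ℕ, (∀ v w, t v w = t w v) ∧
      (∀ v ∈ A, ∀ w ∈ A, G.Adj v w → t v w ∈ P ∧ t v w ∉ Z v) ∧
      ∀ v ∈ A, ∀ w ∈ A, ∀ w' ∈ A, G.Adj v w → G.Adj v w' → w ≠ w' → t v w ≠ t v w' := by
  obtain ⟨τ, h1, h2⟩ := greedy (ι := Sym2 V) (fun e e' => ∃ v, v ∈ e ∧ v ∈ e')
    ((univ : Finset (Sym2 V)).filter (fun e => e ∈ G.edgeSet ∧ ∀ v ∈ e, v ∈ A))
    (fun e => P.filter (fun b => ∀ v ∈ e, b ∉ Z v))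
    (fun e e' ⟨v, h, h'⟩ => ⟨v, h', h⟩) (by
      intro e he
      rw [mem_filter] at he
      obtain ⟨_, he1, he2⟩ := he
      induction e using Sym2.ind with
      | _ v w =>
      have hv : v ∈ A := he2 v (by simp)
      have hw : w ∈ A := he2 w (by simp)
      have h3 : P ⊆ (P.filter (fun b => ∀ y ∈ s(v, w), b ∉ Z y)) ∪ (Z v ∪ Z w) := by
        intro b hb
        rw [mem_union, mem_union, mem_filter]
        by_cases hbv : b ∈ Z v
        · exact Or.inr (Or.inl hbv)
        · by_cases hbw : b ∈ Z w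
          · exact Or.inr (Or.inr hbw)
          · refine Or.inl ⟨hb, ?_⟩
            intro y hy
            rw [Sym2.mem_iff] at hy
            rcases hy with rfl | rfl
            · exact hbv
            · exact hbw
      have h4 := (card_le_card h3).trans ((card_union_le _ _).trans
        (Nat.add_le_add_left (card_union_le _ _) _))
      have h5 := hZ v hv
      have h6 := hZ w hw
      have h8 : ((A ×ˢ ({v, w} : Finset V)).image (fun p => s(p.1, p.2))).card ≤
          (A ×ˢ ({v, w} : Finset V)).card := card_image_le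
      rw [card_product] at h8
      have h9 : ({v, w} : Finset V).card ≤ 2 := card_le_two
      have h10 : A.card * ({v, w} : Finset V).card ≤ m * 2 := Nat.mul_le_mul hA h9
      refine lt_of_le_of_lt (card_le_card
        (t := (A ×ˢ ({v, w} : Finset V)).image (fun p => s(p.1, p.2))) ?_) (by omega)
      intro e he
      simp only [mem_filter] at he
      obtain ⟨⟨_, _, h8⟩, y, hy, hye⟩ := he
      rw [mem_image]
      obtain ⟨y', rfl⟩ := hye
      refine ⟨(y', y), ?_, Sym2.eq_swap⟩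
      rw [mem_product]
      refine ⟨h8 y' (by simp), ?_⟩
      rw [Sym2.mem_iff] at hy
      simpa using hy)
  refine ⟨fun v w => τ s(v, w), ?_, ?_, ?_⟩
  · intro v w
    show τ s(v, w) = τ s(w, v)
    rw [Sym2.eq_swap]
  · intro v hv w hw hvw
    have h3 := h1 s(v, w) (by
      rw [mem_filter]
      refine ⟨mem_univ _, hvw, ?_⟩
      intro y hy
      rw [Sym2.mem_iff] at hy
      rcases hy with rfl | rfl
      · exact hv
      · exact hw)
    rw [mem_filter] at h3
    exact ⟨h3.1, h3.2 v (by simp)⟩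
  · intro v hv w hw w' hw' hvw hvw' hne
    have hmem : ∀ w, w ∈ A → G.Adj v w →
        s(v, w) ∈ ((univ : Finset (Sym2 V)).filter (fun e => e ∈ G.edgeSet ∧ ∀ v ∈ e, v ∈ A)) := by
      intro w hw hvw
      rw [mem_filter]
      refine ⟨mem_univ _, hvw, ?_⟩
      intro y hy
      rw [Sym2.mem_iff] at hy
      rcases hy with rfl | rfl
      · exact hv
      · exact hw
    refine h2 s(v, w) (hmem w hw hvw) s(v, w') (hmem w' hw' hvw') ?_ ⟨v, by simp, by simp⟩
    intro h
    exact hne (Sym2.congr_right.mp h)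

theorem stmt_ABSB : Stmt_ABSB.{u} := by
  intro V _ G W E Z z hZ hE
  -- a colouring `t` of the edges inside `W`
  suffices H : ∃ t : V → V → ℕ, (∀ v w, v ∈ W → w ∈ W → G.Adj v w → t v w = t w v) ∧
      (∀ v ∈ W, ∀ w ∈ W, G.Adj v w → t v w ∈ E ∧ t v w ∉ Z v) ∧
      ∀ v ∈ W, ∀ w ∈ W, ∀ w' ∈ W, G.Adj v w → G.Adj v w' → w ≠ w' → t v w ≠ t v w' by
    obtain ⟨t, hsym, hmem, hinj⟩ := H
    obtain ⟨K, hK⟩ : ∃ K : ℕ → V → V, K = fun b v =>
        if h : ∃ w, v ∈ W ∧ w ∈ W ∧ G.Adj v w ∧ t v w = b then h.choose else v := ⟨_, rfl⟩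
    have hK1 : ∀ b v w, v ∈ W → w ∈ W → G.Adj v w → t v w = b → K b v = w := by
      intro b v w hv hw hvw hb
      have h : ∃ w, v ∈ W ∧ w ∈ W ∧ G.Adj v w ∧ t v w = b := ⟨w, hv, hw, hvw, hb⟩
      rw [hK]
      simp only [h, dite_true]
      obtain ⟨h1, h2, h3, h4⟩ := h.choose_spec
      by_contra hne
      exact hinj v hv _ h2 w hw h3 hvw hne (h4.trans hb.symm)
    have hK2 : ∀ b v, K b v ≠ v → v ∈ W ∧ K b v ∈ W ∧ G.Adj v (K b v) ∧ t v (K b v) = b := by
      intro b v hv
      by_cases h : ∃ w, v ∈ W ∧ w ∈ W ∧ G.Adj v w ∧ t v w = b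
      · have h1 : K b v = h.choose := by
          rw [hK]
          simp only [h, dite_true]
        rw [h1]
        exact h.choose_spec
      · exfalso
        apply hv
        rw [hK]
        simp only [h, dite_false]
    refine ⟨K, ⟨?_, ?_, ?_⟩, ?_, ?_⟩
    · intro b _ v
      by_cases h : K b v = v
      · rw [h, h]
      · obtain ⟨h1, h2, h3, h4⟩ := hK2 b v h
        exact hK1 b _ v h2 h1 h3.symm (by rw [← hsym v _ h1 h2 h3]; exact h4)
    · intro b _ v hv
      exact (hK2 b v hv).2.2.1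
    · intro b _ b' _ hbb v hv heq
      obtain ⟨h1, h2, h3, h4⟩ := hK2 b v hv
      obtain ⟨h5, h6, h7, h8⟩ := hK2 b' v (by rw [← heq]; exact hv)
      rw [← heq, h4] at h8
      exact hbb h8
    · intro b _ v hv
      obtain ⟨h1, h2, h3, h4⟩ := hK2 b v hv
      refine ⟨h1, ?_⟩
      rw [← h4]
      exact (hmem v h1 _ h2 h3).2
    · intro v hv w hw hvw
      exact ⟨t v w, (hmem v hv w hw hvw).1, hK1 _ v w hv hw hvw rfl⟩
  obtain ⟨m, hm⟩ : ∃ m, m = (W.card + 1) / 2 + 1 := ⟨_, rfl⟩
  obtain ⟨A, hAW, hA⟩ := Finset.exists_subset_card_eq (s := W) (n := W.card / 2)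
    (Nat.div_le_self _ _)
  obtain ⟨B, hB⟩ : ∃ B, B = W \ A := ⟨_, rfl⟩
  have hBc : B.card = W.card - W.card / 2 := by
    rw [hB, card_sdiff_of_subset hAW, hA]
  have hBW : B ⊆ W := by
    rw [hB]
    exact sdiff_subset
  have hcov : ∀ v ∈ W, v ∉ A → v ∈ B := by
    intro v hv h
    rw [hB]
    exact mem_sdiff.mpr ⟨hv, h⟩
  have hdis : ∀ v ∈ B, v ∉ A := by
    intro v hv
    rw [hB, mem_sdiff] at hv
    exact hv.2
  obtain ⟨P1, hP1E, hP1⟩ := Finset.exists_subset_card_eq (s := E) (n := m + 2 * z) (by omega)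
  obtain ⟨P2, hP2⟩ : ∃ P2, P2 = E \ P1 := ⟨_, rfl⟩
  have hP2c : P2.card = E.card - (m + 2 * z) := by
    rw [hP2, card_sdiff_of_subset hP1E, hP1]
  have hP12 : ∀ b ∈ P1, b ∉ P2 := by
    intro b hb
    rw [hP2, mem_sdiff]
    exact fun h => h.2 hb
  have hP2E : P2 ⊆ E := by
    rw [hP2]
    exact sdiff_subset
  obtain ⟨col, hc1, hc2, hc3⟩ := galvin_AB G A B m (by omega) (by omega) (by omega)
    (fun e => P1 \ (Z e.1 ∪ Z e.2)) (by
      intro e h1 h2 _
      have h3 := hZ _ (hAW h1)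
      have h4 := hZ _ (hBW h2)
      have h5 := card_union_le (Z e.1) (Z e.2)
      have h6 := le_card_sdiff (Z e.1 ∪ Z e.2) P1
      omega)
  obtain ⟨tA, hA1, hA2, hA3⟩ := greedy_half G A m z (by omega) P2 Z (fun v hv => hZ v (hAW hv))
    (by omega)
  obtain ⟨tB, hB1, hB2, hB3⟩ := greedy_half G B m z (by omega) P2 Z (fun v hv => hZ v (hBW hv))
    (by omega)
  obtain ⟨t, ht⟩ : ∃ t : V → V → ℕ, t = fun v w => if v ∈ A then
      (if w ∈ A then tA v w else col (v, w)) else
      (if w ∈ A then col (w, v) else tB v w) := ⟨_, rfl⟩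
  have tAA : ∀ v w, v ∈ A → w ∈ A → t v w = tA v w := by
    intro v w h1 h2
    rw [ht]
    simp only [h1, h2, if_true]
  have tAB : ∀ v w, v ∈ A → w ∉ A → t v w = col (v, w) := by
    intro v w h1 h2
    rw [ht]
    simp only [h1, h2, if_true, if_false]
  have tBA : ∀ v w, v ∉ A → w ∈ A → t v w = col (w, v) := by
    intro v w h1 h2
    rw [ht]
    simp only [h1, h2, if_true, if_false]
  have tBB : ∀ v w, v ∉ A → w ∉ A → t v w = tB v w := by
    intro v w h1 h2
    rw [ht]
    simp only [h1, h2, if_false]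
  -- colours between the halves and inside the halves
  have hcross : ∀ v ∈ W, ∀ w ∈ W, G.Adj v w → ¬ (v ∈ A ↔ w ∈ A) →
      t v w ∈ P1 ∧ t v w ∉ Z v := by
    intro v hv w hw hvw hne
    by_cases h1 : v ∈ A
    · have h2 : w ∉ A := fun h => hne ⟨fun _ => h, fun _ => h1⟩
      rw [tAB v w h1 h2]
      have := hc1 v h1 w (hcov w hw h2) hvw
      rw [mem_sdiff, mem_union] at this
      exact ⟨this.1, fun h => this.2 (Or.inl h)⟩
    · have h2 : w ∈ A := by
        by_contra h
        exact hne ⟨fun h' => absurd h' h1, fun h' => absurd h' h⟩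
      rw [tBA v w h1 h2]
      have := hc1 w h2 v (hcov v hv h1) hvw.symm
      rw [mem_sdiff, mem_union] at this
      exact ⟨this.1, fun h => this.2 (Or.inr h)⟩
  have hin : ∀ v ∈ W, ∀ w ∈ W, G.Adj v w → (v ∈ A ↔ w ∈ A) →
      t v w ∈ P2 ∧ t v w ∉ Z v := by
    intro v hv w hw hvw hiff
    by_cases h1 : v ∈ A
    · rw [tAA v w h1 (hiff.mp h1)]
      exact hA2 v h1 w (hiff.mp h1) hvw
    · have h2 : w ∉ A := fun h => h1 (hiff.mpr h)
      rw [tBB v w h1 h2]
      exact hB2 v (hcov v hv h1) w (hcov w hw h2) hvw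
  refine ⟨t, ?_, ?_, ?_⟩
  · intro v w hv hw hvw
    by_cases h1 : v ∈ A
    · by_cases h2 : w ∈ A
      · rw [tAA v w h1 h2, tAA w v h2 h1, hA1]
      · rw [tAB v w h1 h2, tBA w v h2 h1]
    · by_cases h2 : w ∈ A
      · rw [tBA v w h1 h2, tAB w v h2 h1]
      · rw [tBB v w h1 h2, tBB w v h2 h1, hB1]
  · intro v hv w hw hvw
    by_cases h : v ∈ A ↔ w ∈ A
    · have := hin v hv w hw hvw h
      exact ⟨hP2E this.1, this.2⟩
    · have := hcross v hv w hw hvw h
      exact ⟨hP1E this.1, this.2⟩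
  · intro v hv w hw w' hw' hvw hvw' hne heq
    by_cases h : v ∈ A ↔ w ∈ A
    · by_cases h' : v ∈ A ↔ w' ∈ A
      · by_cases h1 : v ∈ A
        · rw [tAA v w h1 (h.mp h1), tAA v w' h1 (h'.mp h1)] at heq
          exact hA3 v h1 w (h.mp h1) w' (h'.mp h1) hvw hvw' hne heq
        · have h2 : w ∉ A := fun h3 => h1 (h.mpr h3)
          have h2' : w' ∉ A := fun h3 => h1 (h'.mpr h3)
          rw [tBB v w h1 h2, tBB v w' h1 h2'] at heq
          exact hB3 v (hcov v hv h1) w (hcov w hw h2) w' (hcov w' hw' h2') hvw hvw' hne heq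
      · have h3 := hin v hv w hw hvw h
        have h4 := hcross v hv w' hw' hvw' h'
        rw [heq] at h3
        exact hP12 _ h4.1 h3.1
    · by_cases h' : v ∈ A ↔ w' ∈ A
      · have h3 := hcross v hv w hw hvw h
        have h4 := hin v hv w' hw' hvw' h'
        rw [heq] at h3
        exact hP12 _ h3.1 h4.1
      · by_cases h1 : v ∈ A
        · have h2 : w ∉ A := fun h3 => h ⟨fun _ => h3, fun _ => h1⟩
          have h2' : w' ∉ A := fun h3 => h' ⟨fun _ => h3, fun _ => h1⟩
          rw [tAB v w h1 h2, tAB v w' h1 h2'] at heq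
          exact hc2 v h1 w (hcov w hw h2) w' (hcov w' hw' h2') hvw hvw' hne heq
        · have h2 : w ∈ A := by
            by_contra h3
            exact h ⟨fun h' => absurd h' h1, fun h' => absurd h' h3⟩
          have h2' : w' ∈ A := by
            by_contra h3
            exact h' ⟨fun h'' => absurd h'' h1, fun h'' => absurd h'' h3⟩
          rw [tBA v w h1 h2, tBA v w' h1 h2'] at heq
          exact hc3 w h2 w' h2' v (hcov v hv h1) hvw.symm hvw'.symm hne heq

end Pool.Agent.Work.MP_db9399_nc.helper21
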